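import Mathlib

/-!
# Lemma K: a fractional covering lemma for sets of bounded cost

Items `i` with costs `κ i ≤ s`, at most `p * (s + 1)` in total.  There is a random set `Z` of cost at most `s` which
meets every set `X` of at most `p` items with probability at least `|X| / (2 p)`.
-/

open Finset

namespace Pool.Agent.Helper67.LK

variable {ι : Type*} [DecidableEq ι]

/-- `μ` is a measure of mass `M` on the subsets of `Q` of cost at most `s`, such that the sets that meet `X` have
mass at least `|X|`, for every `X ⊆ Q` with at most `p` elements. -/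
structure Good (κ : ι → ℕ) (p s : ℕ) (Q : Finset ι) (M : ℝ) (μ : Finset ι → ℝ) : Prop where
  nonneg : ∀ Z, 0 ≤ μ Z
  supp : ∀ Z, s < ∑ i ∈ Z, κ i → μ Z = 0
  mass : ∑ Z ∈ Q.powerset, μ Z = M
  hit : ∀ X, X ⊆ Q → X.card ≤ p → (X.card : ℝ) ≤ ∑ Z ∈ Q.powerset, if Disjoint Z X then 0 else μ Z

theorem good_empty (κ : ι → ℕ) (p s : ℕ) {M : ℝ} (hM : 0 ≤ M) :
    Good κ p s ∅ M (fun Z => if Z = ∅ then M else 0) where
  nonneg Z := by split_ifs <;> simp [hM]
  supp Z hZ := by
    rw [if_neg]
    rintro rfl
    simp at hZ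
  mass := by simp
  hit X hX _ := by
    rw [Finset.subset_empty] at hX
    subst hX
    simp

/-- adding an item costs mass 1 -/
theorem Good.R {κ : ι → ℕ} {p s : ℕ} {Q : Finset ι} {M : ℝ} {μ : Finset ι → ℝ} (h : Good κ p s Q M μ)
    {b : ι} (hb : b ∉ Q) (hbs : κ b ≤ s) :
    Good κ p s (insert b Q) (M + 1) (fun Z => if b ∈ Z then (if Z = {b} then 1 else 0) else μ Z) where
  nonneg Z := by
    split_ifs
    · exact zero_le_one
    · exact le_rfl
    · exact h.nonneg Z
  supp Z hZ := by
    split_ifs with h1 h2
    · subst h2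
      simp at hZ
      omega
    · rfl
    · exact h.supp Z hZ
  mass := by
    rw [Finset.sum_powerset_insert hb]
    congr 1
    · rw [← h.mass]
      refine Finset.sum_congr rfl fun Z hZ => ?_
      rw [if_neg fun h' => hb (Finset.mem_powerset.1 hZ h')]
    · rw [Finset.sum_eq_single ∅]
      · simp
      · intro Z hZ hZ0
        rw [if_pos (Finset.mem_insert_self _ _), if_neg]
        intro h'
        apply hZ0
        have hbZ : b ∉ Z := fun h' => hb (Finset.mem_powerset.1 hZ h')
        ext i
        constructor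
        · intro hi
          have : i ∈ ({b} : Finset ι) := h' ▸ Finset.mem_insert_of_mem hi
          rw [Finset.mem_singleton] at this
          exact absurd (this ▸ hi) hbZ
        · simp
      · simp
  hit X hX hXp := by
    rw [Finset.sum_powerset_insert hb]
    have h1 := h.hit (X.erase b) (by
      intro i hi
      rw [Finset.mem_erase] at hi
      exact (Finset.mem_insert.1 (hX hi.2)).resolve_left hi.1)
      ((Finset.card_erase_le).trans hXp)
    have e1 : ∑ Z ∈ Q.powerset, (if Disjoint Z X then 0 else
        if b ∈ Z then (if Z = {b} then (1:ℝ) else 0) else μ Z) =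
        ∑ Z ∈ Q.powerset, if Disjoint Z (X.erase b) then 0 else μ Z := by
      refine Finset.sum_congr rfl fun Z hZ => ?_
      have hbZ : b ∉ Z := fun h' => hb (Finset.mem_powerset.1 hZ h')
      have : Disjoint Z X ↔ Disjoint Z (X.erase b) := by
        rw [Finset.disjoint_left, Finset.disjoint_left]
        constructor
        · intro h i hi hi'
          exact h hi (Finset.mem_of_mem_erase hi')
        · intro h i hi hi'
          exact h hi (Finset.mem_erase.2 ⟨fun h' => hbZ (h' ▸ hi), hi'⟩)
      simp only [this, if_neg hbZ]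
    rw [e1]
    by_cases hbX : b ∈ X
    · have h2 : (1:ℝ) ≤ ∑ Z ∈ Q.powerset, (if Disjoint (insert b Z) X then 0 else
        if b ∈ insert b Z then (if insert b Z = {b} then (1:ℝ) else 0) else μ (insert b Z)) := by
        refine le_trans ?_ (Finset.single_le_sum (f := fun Z => (if Disjoint (insert b Z) X then 0 else
          if b ∈ insert b Z then (if insert b Z = {b} then (1:ℝ) else 0) else μ (insert b Z))) ?_
          (Finset.empty_mem_powerset Q))
        · rw [if_neg, if_pos, if_pos]
          · simp
          · simp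
          · simp [hbX]
        · intro Z _
          split_ifs
          · exact le_rfl
          · exact zero_le_one
          · exact le_rfl
          · exact h.nonneg _
      have h3 : (X.card : ℝ) = (X.erase b).card + 1 := by
        rw [← Finset.card_erase_add_one hbX]
        push_cast
        ring
      linarith
    · have h2 : (0:ℝ) ≤ ∑ Z ∈ Q.powerset, (if Disjoint (insert b Z) X then 0 else
        if b ∈ insert b Z then (if insert b Z = {b} then (1:ℝ) else 0) else μ (insert b Z)) := by
        refine Finset.sum_nonneg fun Z _ => ?_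
        split_ifs
        · exact le_rfl
        · exact zero_le_one
        · exact le_rfl
        · exact h.nonneg _
      rw [Finset.erase_eq_of_notMem hbX] at h1
      rw [Finset.erase_eq_of_notMem hbX]
      linarith

/-- contracting or removing the item `a` -/
theorem Good.P {κ : ι → ℕ} {p s : ℕ} {Q : Finset ι} {Ec Er : ℝ} {μc μr : Finset ι → ℝ} {a : ι} (ha : a ∉ Q)
    (has : κ a ≤ s) (hc : Good κ p (s - κ a) Q (p + Ec) μc) (hr : Good κ p s Q (p + Er) μr) (hEc : 0 ≤ Ec) :
    Good κ p s (insert a Q) (p + Ec * (1 + Er) / (1 + Ec))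
      (fun Z => if a ∈ Z then (1 / (1 + Ec)) * μc (Z.erase a) else (1 - 1 / (1 + Ec)) * μr Z) := by
  have hpos : 0 < 1 + Ec := by linarith
  set q : ℝ := 1 / (1 + Ec) with hq
  have hq0 : 0 ≤ q := by positivity
  have hq1 : q ≤ 1 := by rw [hq, div_le_one hpos]; linarith
  have hqE : q * Ec = 1 - q := by rw [hq]; field_simp; ring
  have hM : (p : ℝ) + Ec * (1 + Er) / (1 + Ec) = (1 - q) * (p + Er) + q * (p + Ec) := by
    rw [hq]
    field_simp
    ring
  have sum1 : ∀ X : Finset ι, ∑ Z ∈ Q.powerset, (if Disjoint Z X then 0 else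
        if a ∈ Z then q * μc (Z.erase a) else (1 - q) * μr Z) =
        (1 - q) * ∑ Z ∈ Q.powerset, if Disjoint Z (X.erase a) then 0 else μr Z := by
    intro X
    rw [Finset.mul_sum]
    refine Finset.sum_congr rfl fun Z hZ => ?_
    have haZ : a ∉ Z := fun h' => ha (Finset.mem_powerset.1 hZ h')
    have : Disjoint Z X ↔ Disjoint Z (X.erase a) := by
      rw [Finset.disjoint_left, Finset.disjoint_left]
      constructor
      · intro h i hi hi'
        exact h hi (Finset.mem_of_mem_erase hi')
      · intro h i hi hi'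
        exact h hi (Finset.mem_erase.2 ⟨fun h' => haZ (h' ▸ hi), hi'⟩)
    simp only [this, if_neg haZ]
    split_ifs <;> simp
  have mass1 : ∑ Z ∈ Q.powerset, (if a ∈ Z then q * μc (Z.erase a) else (1 - q) * μr Z) = (1 - q) * (p + Er) := by
    rw [← hr.mass, Finset.mul_sum]
    refine Finset.sum_congr rfl fun Z hZ => ?_
    rw [if_neg fun h' => ha (Finset.mem_powerset.1 hZ h')]
  have mass2 : ∑ Z ∈ Q.powerset, (if a ∈ insert a Z then q * μc ((insert a Z).erase a) else
      (1 - q) * μr (insert a Z)) = q * (p + Ec) := by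
    rw [← hc.mass, Finset.mul_sum]
    refine Finset.sum_congr rfl fun Z hZ => ?_
    rw [if_pos (Finset.mem_insert_self _ _), Finset.erase_insert fun h' => ha (Finset.mem_powerset.1 hZ h')]
  refine ⟨?_, ?_, ?_, ?_⟩
  · intro Z
    split_ifs
    · exact mul_nonneg hq0 (hc.nonneg _)
    · exact mul_nonneg (by linarith) (hr.nonneg _)
  · intro Z hZ
    split_ifs with h1
    · rw [hc.supp, mul_zero]
      have := Finset.add_sum_erase Z κ h1
      omega
    · rw [hr.supp Z hZ, mul_zero]
  · rw [Finset.sum_powerset_insert ha, mass1, mass2, hM]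
  · intro X hX hXp
    rw [Finset.sum_powerset_insert ha, sum1 X]
    have h1 := hr.hit (X.erase a) (by
      intro i hi
      rw [Finset.mem_erase] at hi
      exact (Finset.mem_insert.1 (hX hi.2)).resolve_left hi.1)
      ((Finset.card_erase_le).trans hXp)
    have hp : (X.card : ℝ) ≤ p := by exact_mod_cast hXp
    by_cases haX : a ∈ X
    · have h2 : ∑ Z ∈ Q.powerset, (if Disjoint (insert a Z) X then 0 else
        if a ∈ insert a Z then q * μc ((insert a Z).erase a) else (1 - q) * μr (insert a Z)) = q * (p + Ec) := by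
        rw [← mass2]
        refine Finset.sum_congr rfl fun Z _ => ?_
        rw [if_neg]
        rw [Finset.disjoint_left]
        push Not
        exact ⟨a, Finset.mem_insert_self _ _, haX⟩
      have h3 : (X.card : ℝ) = (X.erase a).card + 1 := by
        rw [← Finset.card_erase_add_one haX]
        push_cast
        ring
      rw [h2]
      have h4 : (1 - q) * ((X.erase a).card : ℝ) ≤ (1 - q) * ∑ Z ∈ Q.powerset, (if Disjoint Z (X.erase a) then 0
          else μr Z) := mul_le_mul_of_nonneg_left h1 (by linarith)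
      have h5 : q * (X.card : ℝ) ≤ q * p := mul_le_mul_of_nonneg_left hp hq0
      have h6 : q * ((p:ℝ) + Ec) = q * p + (1 - q) := by rw [mul_add, hqE]
      nlinarith
    · have hXQ : X ⊆ Q := fun i hi => (Finset.mem_insert.1 (hX hi)).resolve_left fun h' => haX (h' ▸ hi)
      have h2 : ∑ Z ∈ Q.powerset, (if Disjoint (insert a Z) X then 0 else
        if a ∈ insert a Z then q * μc ((insert a Z).erase a) else (1 - q) * μr (insert a Z)) =
        q * ∑ Z ∈ Q.powerset, if Disjoint Z X then 0 else μc Z := by
        rw [Finset.mul_sum]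
        refine Finset.sum_congr rfl fun Z hZ => ?_
        have haZ : a ∉ Z := fun h' => ha (Finset.mem_powerset.1 hZ h')
        rw [if_pos (Finset.mem_insert_self _ _), Finset.erase_insert haZ]
        have : Disjoint (insert a Z) X ↔ Disjoint Z X := by
          rw [Finset.disjoint_insert_left]
          simp [haX]
        simp only [this]
        split_ifs <;> simp
      have h3 := hc.hit X hXQ hXp
      rw [h2]
      rw [Finset.erase_eq_of_notMem haX] at h1
      rw [Finset.erase_eq_of_notMem haX]
      have h4 := mul_le_mul_of_nonneg_left h1 (by linarith : 0 ≤ 1 - q)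
      have h5 := mul_le_mul_of_nonneg_left h3 hq0
      nlinarith

/-- the measure of the singletons -/
theorem good_card (κ : ι → ℕ) (p s : ℕ) (Q : Finset ι) (hQ : ∀ i ∈ Q, κ i ≤ s) :
    ∀ M : ℝ, (Q.card : ℝ) ≤ M → ∃ μ, Good κ p s Q M μ := by
  induction Q using Finset.induction_on with
  | empty =>
    intro M hM
    exact ⟨_, good_empty κ p s (by simpa using hM)⟩
  | insert b Q hb ih =>
    intro M hM
    rw [Finset.card_insert_of_notMem hb] at hM
    push_cast at hM
    obtain ⟨μ, hμ⟩ := ih (fun i hi => hQ i (Finset.mem_insert_of_mem hi)) (M - 1) (by linarith)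
    have := hμ.R hb (hQ b (Finset.mem_insert_self _ _))
    rw [sub_add_cancel] at this
    exact ⟨_, this⟩

/-- the induction along the states `(s', {l, …, r - 1})` -/
theorem main_induction {κ : ι → ℕ} {p s N : ℕ} {e : ℕ → ι} (he : Set.InjOn e {i | i < N})
    (hmono : ∀ i j, i ≤ j → j < N → κ (e i) ≤ κ (e j)) (h2p : 2 * p ≤ N) (hp : 1 ≤ p) :
    ∀ n s' l : ℕ, l + (p + n) ≤ N → s' ≤ s → (∀ i, l ≤ i → i < l + (p + n) → κ (e i) ≤ s') →
    ∃ E : ℝ, 0 ≤ E ∧ (∃ μ, Good κ p s' ((Finset.Ico l (l + (p + n))).image e) (p + E) μ) ∧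
      E * (s' + 1 - κ (e (N - 2 * p))) + s' - ∑ i ∈ Finset.Ico l (l + (p + n)), (κ (e i) : ℝ) ≤
        s - p * κ (e (N - 2 * p)) - ((N : ℝ) - (l + (p + n) : ℕ)) * (κ (e l) - κ (e (N - 2 * p))) := by
  intro n
  induction n with
  | zero =>
    intro s' l hl hs' hcost
    refine ⟨0, le_rfl, ?_, ?_⟩
    · refine good_card κ p s' _ (fun i hi => ?_) _ ?_
      · obtain ⟨j, hj, rfl⟩ := Finset.mem_image.1 hi
        rw [Finset.mem_Ico] at hj
        exact hcost j hj.1 hj.2
      · have h1 := Finset.card_image_le (s := Finset.Ico l (l + (p + 0))) (f := e)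
        rw [Nat.card_Ico] at h1
        have h2 : (((Finset.Ico l (l + (p + 0))).image e).card : ℝ) ≤ ((l + (p + 0) - l : ℕ) : ℝ) := by
          exact_mod_cast h1
        have h3 : l + (p + 0) - l = p := by omega
        rw [h3] at h2
        linarith
    · have h1 : (p : ℝ) * κ (e l) ≤ ∑ i ∈ Finset.Ico l (l + (p + 0)), (κ (e i) : ℝ) := by
        have : ∑ i ∈ Finset.Ico l (l + (p + 0)), (κ (e l) : ℝ) ≤
            ∑ i ∈ Finset.Ico l (l + (p + 0)), (κ (e i) : ℝ) := by
          refine Finset.sum_le_sum fun i hi => ?_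
          rw [Finset.mem_Ico] at hi
          exact_mod_cast hmono l i hi.1 (by omega)
        rw [Finset.sum_const, Nat.card_Ico, nsmul_eq_mul] at this
        have h3 : l + (p + 0) - l = p := by omega
        rw [h3] at this
        exact this
      have h2 : (s' : ℝ) ≤ s := by exact_mod_cast hs'
      have h3 : ((N : ℝ) - 2 * p - l) * (κ (e l) - κ (e (N - 2 * p))) ≤ 0 := by
        rcases le_total l (N - 2 * p) with h | h
        · refine mul_nonpos_of_nonneg_of_nonpos ?_ ?_
          · have : l + 2 * p ≤ N := by omega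
            have : ((l + 2 * p : ℕ) : ℝ) ≤ N := by exact_mod_cast this
            push_cast at this
            linarith
          · have : κ (e l) ≤ κ (e (N - 2 * p)) := hmono _ _ h (by omega)
            have : (κ (e l) : ℝ) ≤ κ (e (N - 2 * p)) := by exact_mod_cast this
            linarith
        · refine mul_nonpos_of_nonpos_of_nonneg ?_ ?_
          · have : N ≤ l + 2 * p := by omega
            have : (N : ℝ) ≤ ((l + 2 * p : ℕ) : ℝ) := by exact_mod_cast this
            push_cast at this
            linarith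
          · have : κ (e (N - 2 * p)) ≤ κ (e l) := hmono _ _ h (by omega)
            have : (κ (e (N - 2 * p)) : ℝ) ≤ κ (e l) := by exact_mod_cast this
            linarith
      push_cast
      nlinarith
  | succ n ih =>
    intro s' l hl hs' hcost
    have hr : l + (p + (n + 1)) = (l + (p + n)) + 1 := by omega
    have hr2 : l + (p + (n + 1)) = (l + 1) + (p + n) := by omega
    by_cases hR : s' + 1 ≤ κ (e l) + κ (e (l + (p + n)))
    · -- the R-step
      obtain ⟨E, hE0, ⟨μ, hμ⟩, hE⟩ := ih s' l (by omega) hs' (fun i h1 h2 => hcost i h1 (by omega))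
      refine ⟨E + 1, by linarith, ?_, ?_⟩
      · have hnot : e (l + (p + n)) ∉ (Finset.Ico l (l + (p + n))).image e := by
          intro h
          obtain ⟨j, hj, hje⟩ := Finset.mem_image.1 h
          rw [Finset.mem_Ico] at hj
          have := he (show j ∈ {i | i < N} by show _ < N; omega)
            (show l + (p + n) ∈ {i | i < N} by show _ < N; omega) hje
          omega
        have h1 := hμ.R hnot (hcost _ (by omega) (by omega))
        rw [← Finset.image_insert] at h1
        have h2 : insert (l + (p + n)) (Finset.Ico l (l + (p + n))) = Finset.Ico l (l + (p + (n + 1))) := by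
          ext i
          simp only [Finset.mem_insert, Finset.mem_Ico]
          omega
        rw [h2, add_assoc] at h1
        exact ⟨_, h1⟩
      · rw [hr, Finset.sum_Ico_succ_top (by omega)]
        have h1 : ((s' : ℝ) + 1) ≤ κ (e l) + κ (e (l + (p + n))) := by exact_mod_cast hR
        push_cast
        push_cast at hE
        nlinarith
    · -- the P-step
      push Not at hR
      have hle : ∀ i, l + 1 ≤ i → i < (l + 1) + (p + n) → κ (e i) + κ (e l) ≤ s' := by
        intro i h1 h2
        have := hmono i (l + (p + n)) (by omega) (by omega)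
        omega
      obtain ⟨Ec, hEc0, ⟨μc, hμc⟩, hEc⟩ := ih (s' - κ (e l)) (l + 1) (by omega) (by omega)
        (fun i h1 h2 => by have := hle i h1 h2; omega)
      obtain ⟨Er, hEr0, ⟨μr, hμr⟩, hEr⟩ := ih s' (l + 1) (by omega) hs'
        (fun i h1 h2 => by have := hle i h1 h2; omega)
      have hls : κ (e l) ≤ s' := hcost l le_rfl (by omega)
      have hpos : 0 < 1 + Ec := by linarith
      refine ⟨Ec * (1 + Er) / (1 + Ec), by positivity, ?_, ?_⟩
      · have hnot : e l ∉ (Finset.Ico (l + 1) ((l + 1) + (p + n))).image e := by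
          intro h
          obtain ⟨j, hj, hje⟩ := Finset.mem_image.1 h
          rw [Finset.mem_Ico] at hj
          have := he (show j ∈ {i | i < N} by show _ < N; omega)
            (show l ∈ {i | i < N} by show _ < N; omega) hje
          omega
        have h1 := Good.P hnot hls hμc hμr hEc0
        rw [← Finset.image_insert] at h1
        have h2 : insert l (Finset.Ico (l + 1) ((l + 1) + (p + n))) = Finset.Ico l (l + (p + (n + 1))) := by
          ext i
          simp only [Finset.mem_insert, Finset.mem_Ico]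
          omega
        rw [h2] at h1
        exact ⟨_, h1⟩
      · rw [Finset.sum_eq_sum_Ico_succ_bot (by omega), hr2]
        have hcast : ((s' - κ (e l) : ℕ) : ℝ) = s' - κ (e l) := Nat.cast_sub hls
        rw [hcast] at hEc
        set x : ℝ := (κ (e (N - 2 * p)) : ℝ) with hx
        set T : ℝ := ∑ i ∈ Finset.Ico (l + 1) (l + 1 + (p + n)), (κ (e i) : ℝ) with hT
        set q : ℝ := 1 / (1 + Ec) with hq
        have hq0 : 0 ≤ q := by positivity
        have hq1 : q ≤ 1 := by rw [hq, div_le_one hpos]; linarith
        have hqE : q * Ec = 1 - q := by rw [hq]; field_simp; ring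
        have hE : Ec * (1 + Er) / (1 + Ec) = q * Ec + (1 - q) * Er := by
          rw [hq]
          field_simp
          ring
        -- the bound for the children
        have hH : (s : ℝ) - p * x - ((N : ℝ) - (l + 1 + (p + n) : ℕ)) * (κ (e (l + 1)) - x) ≤
            s - p * x - ((N : ℝ) - (l + 1 + (p + n) : ℕ)) * (κ (e l) - x) := by
          have h1 : κ (e l) ≤ κ (e (l + 1)) := hmono _ _ (by omega) (by omega)
          have h2 : (κ (e l) : ℝ) ≤ κ (e (l + 1)) := by exact_mod_cast h1
          have h3 : ((l + 1 + (p + n) : ℕ) : ℝ) ≤ N := by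
            have : l + 1 + (p + n) ≤ N := by omega
            exact_mod_cast this
          nlinarith
        have h1 := mul_le_mul_of_nonneg_left (hEc.trans hH) hq0
        have h2 := mul_le_mul_of_nonneg_left (hEr.trans hH) (by linarith : 0 ≤ 1 - q)
        have h3 : (q * Ec + (1 - q) * Er) * (s' + 1 - x) + s' - (κ (e l) + T) =
            q * (Ec * (s' - κ (e l) + 1 - x) + (s' - κ (e l)) - T) +
              (1 - q) * (Er * (s' + 1 - x) + s' - T) := by
          have : q * Ec * κ (e l) = (1 - q) * κ (e l) := by rw [hqE]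
          linear_combination this
        rw [hE, h3]
        linarith

/-- **Lemma K**: a random set of cost at most `s` that meets every set `X` of at most `p` items with probability at
least `|X| / (2 p)`. -/
theorem lemmaK_measure [Fintype ι] (κ : ι → ℕ) (p s : ℕ) (hp : 1 ≤ p) (hκ : ∀ i, κ i ≤ s)
    (hK : ∑ i, κ i ≤ p * (s + 1)) :
    ∃ ν : Finset ι → ℝ, (∀ Z, 0 ≤ ν Z) ∧ (∀ Z, s < ∑ i ∈ Z, κ i → ν Z = 0) ∧ ∑ Z, ν Z = 1 ∧
      ∀ X : Finset ι, X.card ≤ p → (X.card : ℝ) ≤ 2 * p * ∑ Z, if Disjoint Z X then 0 else ν Z := by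
  have key : ∃ M : ℝ, 0 < M ∧ M ≤ 2 * p ∧ ∃ μ, Good κ p s (Finset.univ : Finset ι) M μ := by
    have hp' : (1 : ℝ) ≤ p := by exact_mod_cast hp
    by_cases hN : 2 * p ≤ Fintype.card ι
    · set N := Fintype.card ι with hNdef
      have hNpos : 0 < N := by omega
      -- sort the items
      let f : Fin N → ℕ := κ ∘ (Fintype.equivFin ι).symm
      have hmono := Tuple.monotone_sort f
      let g : Fin N ≃ ι := (Tuple.sort f).trans (Fintype.equivFin ι).symm
      let e : ℕ → ι := fun i => if h : i < N then g ⟨i, h⟩ else g ⟨0, hNpos⟩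
      have he : ∀ i (h : i < N), e i = g ⟨i, h⟩ := fun i h => dif_pos h
      have hinj : Set.InjOn e {i | i < N} := by
        intro i hi j hj hij
        rw [he i hi, he j hj] at hij
        have := g.injective hij
        simpa using this
      have hm : ∀ i j, i ≤ j → j < N → κ (e i) ≤ κ (e j) := by
        intro i j hij hj
        rw [he i (by omega), he j hj]
        exact hmono (show (⟨i, by omega⟩ : Fin N) ≤ ⟨j, hj⟩ from hij)
      have himg : (Finset.Ico 0 (0 + (p + (N - p)))).image e = Finset.univ := by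
        rw [Finset.eq_univ_iff_forall]
        intro i
        rw [Finset.mem_image]
        refine ⟨(g.symm i : ℕ), ?_, ?_⟩
        · rw [Finset.mem_Ico]
          have := (g.symm i).isLt
          omega
        · rw [he _ (g.symm i).isLt]
          simp
      obtain ⟨E, hE0, ⟨μ, hμ⟩, hE⟩ := main_induction (s := s) hinj hm hN hp (N - p) s 0 (by omega) le_rfl
        (fun i _ _ => hκ _)
      rw [himg] at hμ
      have hsum : ∑ i ∈ Finset.Ico 0 (0 + (p + (N - p))), (κ (e i) : ℝ) = ∑ i, (κ i : ℝ) := by
        have h1 : 0 + (p + (N - p)) = N := by omega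
        have hinj' : Set.InjOn e (Finset.Ico 0 N : Finset ℕ) := by
          intro i hi j hj hij
          simp only [Finset.coe_Ico, Set.mem_Ico] at hi hj
          exact hinj (by simpa using hi.2) (by simpa using hj.2) hij
        rw [h1] at himg ⊢
        rw [← himg, Finset.sum_image hinj']
      rw [hsum] at hE
      have hN' : ((0 + (p + (N - p)) : ℕ) : ℝ) = N := by
        congr 1
        omega
      rw [hN'] at hE
      have hK' : ∑ i, (κ i : ℝ) ≤ p * (s + 1) := by exact_mod_cast hK
      have hx : (κ (e (N - 2 * p)) : ℝ) ≤ s := by exact_mod_cast hκ _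
      have hle : E * (s + 1 - κ (e (N - 2 * p))) ≤ p * (s + 1 - κ (e (N - 2 * p))) := by
        have h0 : ((N : ℝ) - N) = 0 := sub_self _
        rw [h0] at hE
        linarith
      have hEp : E ≤ p := le_of_mul_le_mul_right hle (by linarith)
      exact ⟨p + E, by linarith, by linarith, μ, hμ⟩
    · push Not at hN
      obtain ⟨μ, hμ⟩ := good_card κ p s (Finset.univ : Finset ι) (fun i _ => hκ i) (2 * p) (by
        rw [Finset.card_univ]
        exact_mod_cast hN.le)
      exact ⟨2 * p, by linarith, le_rfl, μ, hμ⟩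
  obtain ⟨M, hM0, hM2, μ, hμ⟩ := key
  have hpow : (Finset.univ : Finset ι).powerset = Finset.univ := by simp
  refine ⟨fun Z => μ Z / M, fun Z => div_nonneg (hμ.nonneg Z) hM0.le, fun Z hZ => ?_, ?_, fun X hX => ?_⟩
  · show μ Z / M = 0
    rw [hμ.supp Z hZ, zero_div]
  · rw [← Finset.sum_div, ← hpow, hμ.mass, div_self hM0.ne']
  · have h1 := hμ.hit X (Finset.subset_univ _) hX
    rw [hpow] at h1
    have h2 : ∑ Z, (if Disjoint Z X then 0 else μ Z / M) = (∑ Z, if Disjoint Z X then 0 else μ Z) / M := by
      rw [Finset.sum_div]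
      refine Finset.sum_congr rfl fun Z _ => ?_
      split_ifs <;> simp
    rw [h2]
    have h3 : (0 : ℝ) ≤ ∑ Z, (if Disjoint Z X then 0 else μ Z) / M := by
      refine Finset.sum_nonneg fun Z _ => div_nonneg ?_ hM0.le
      split_ifs
      · exact le_rfl
      · exact hμ.nonneg Z
    rw [← Finset.sum_div] at h3
    calc (X.card : ℝ) ≤ ∑ Z, if Disjoint Z X then 0 else μ Z := h1
      _ = M * ((∑ Z, if Disjoint Z X then 0 else μ Z) / M) := by field_simp
      _ ≤ 2 * p * ((∑ Z, if Disjoint Z X then 0 else μ Z) / M) := mul_le_mul_of_nonneg_right hM2 h3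

/-- **Lemma K**, primal form: if the sets that meet `Z` have total weight at most `c` for every `Z` of cost at most
`s`, then the sets `X` of at most `p` elements satisfy `∑ w(X) |X| ≤ 2 p c`. -/
theorem lemmaK [Fintype ι] {α : Type*} (A : Finset α) (κ : ι → ℕ) (p s : ℕ) (hκ : ∀ i, κ i ≤ s)
    (hK : ∑ i, κ i ≤ p * (s + 1)) (X : α → Finset ι) (w : α → ℝ) (hw : ∀ a ∈ A, 0 ≤ w a)
    (hX : ∀ a ∈ A, (X a).card ≤ p) (c : ℝ)
    (hc : ∀ Z : Finset ι, ∑ i ∈ Z, κ i ≤ s → ∑ a ∈ A, (if Disjoint Z (X a) then 0 else w a) ≤ c) :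
    ∑ a ∈ A, w a * (X a).card ≤ 2 * p * c := by
  rcases Nat.eq_zero_or_pos p with rfl | hp
  · have : ∑ a ∈ A, w a * ((X a).card : ℝ) = 0 := by
      refine Finset.sum_eq_zero fun a ha => ?_
      have := hX a ha
      have h0 : (X a).card = 0 := by omega
      rw [h0]
      simp
    rw [this]
    simp
  obtain ⟨ν, hν0, hνs, hν1, hν⟩ := lemmaK_measure κ p s hp hκ hK
  calc ∑ a ∈ A, w a * ((X a).card : ℝ)
      ≤ ∑ a ∈ A, w a * (2 * p * ∑ Z, if Disjoint Z (X a) then 0 else ν Z) :=
        Finset.sum_le_sum fun a ha => mul_le_mul_of_nonneg_left (hν _ (hX a ha)) (hw a ha)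
    _ = 2 * p * ∑ Z, ν Z * ∑ a ∈ A, (if Disjoint Z (X a) then 0 else w a) := by
        simp only [Finset.mul_sum]
        rw [Finset.sum_comm]
        refine Finset.sum_congr rfl fun Z _ => Finset.sum_congr rfl fun a _ => ?_
        split_ifs
        · simp
        · ring
    _ ≤ 2 * p * ∑ Z, ν Z * c := by
        refine mul_le_mul_of_nonneg_left (Finset.sum_le_sum fun Z _ => ?_) (by positivity)
        by_cases hZ : ∑ i ∈ Z, κ i ≤ s
        · exact mul_le_mul_of_nonneg_left (hc Z hZ) (hν0 Z)
        · rw [hνs Z (by omega)]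
          simp
    _ = 2 * p * c := by rw [← Finset.sum_mul, hν1, one_mul]

end Pool.Agent.Helper67.LK
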